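import Mathlib
import Pool.Agent.TH53.SL3

/-!
# Vandermonde determinants of powers and a modulus `q`

If the values of a monic integer polynomial `F` at the algebraic integers `v i` are divisible by the
integer `q` in the ring of algebraic integers, then the Vandermonde determinant of the `v i` is
divisible by `q ^ (∑ j, ⌊j / deg F⌋)`.
-/

set_option autoImplicit false

open Polynomial Finset Module IntermediateField

namespace Pool.Agent.TH860.LP

open Pool.Agent.TH53.HR Pool.Agent.TH53.SL Pool.Agent.H388SL Pool.Agent.H389R3.LR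
  Pool.Agent.H389R3.LP

/-- determinants of matrices with integral entries -/
lemma det_int {n : ℕ} (M : Matrix (Fin n) (Fin n) ℂ) (hM : ∀ i j, IsIntegral ℤ (M i j)) :
    IsIntegral ℤ M.det := by
  have : M = (Matrix.of fun i j => (⟨M i j, hM i j⟩ : integralClosure ℤ ℂ)).map
      (algebraMap (integralClosure ℤ ℂ) ℂ) := by
    ext i j; rfl
  rw [this, ← RingHom.mapMatrix_apply, ← RingHom.map_det]
  exact (Matrix.det _ : integralClosure ℤ ℂ).2

/-- divisibility of the Vandermonde determinant -/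
theorem vand_div {N : ℕ} (v : Fin N → ℂ) (hint : ∀ i, IsIntegral ℤ (v i)) (F : ℤ[X])
    (hF : F.Monic) (q : ℕ)
    (hval : ∀ i, ∃ γ : ℂ, IsIntegral ℤ γ ∧ aeval (v i) F = q * γ) :
    ∃ δ : ℂ, IsIntegral ℤ δ ∧
      (Matrix.vandermonde v).det = (q : ℂ) ^ (∑ j ∈ Finset.range N, j / F.natDegree) * δ := by
  choose γ hγ1 hγ2 using hval
  set D := F.natDegree with hD
  let P : Fin N → ℂ[X] := fun j => X ^ ((j : ℕ) % D) * (F.map (Int.castRingHom ℂ)) ^ ((j : ℕ) / D)
  have hPm : ∀ j, (P j).Monic := fun j => (monic_X_pow _).mul ((hF.map _).pow _)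
  have hPd : ∀ j, (P j).natDegree = j := by
    intro j
    have h1 : (P j).natDegree = (j : ℕ) % D + ((j : ℕ) / D) * D := by
      rw [(monic_X_pow _).natDegree_mul ((hF.map _).pow _), natDegree_X_pow,
        (hF.map _).natDegree_pow, hF.natDegree_map]
    rw [h1, mul_comm, Nat.mod_add_div]
  refine ⟨(Matrix.of fun i j : Fin N => v i ^ ((j : ℕ) % D) * γ i ^ ((j : ℕ) / D)).det, ?_, ?_⟩
  · apply det_int
    intro i j
    rw [Matrix.of_apply]
    exact ((hint i).pow _).mul ((hγ1 i).pow _)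
  · rw [Matrix.det_eval_matrixOfPolynomials_eq_det_vandermonde v P hPd hPm]
    have h2 : (Matrix.of fun i j : Fin N => (P j).eval (v i)) =
        Matrix.of fun i j : Fin N => (q : ℂ) ^ ((j : ℕ) / D) *
          (Matrix.of fun i j : Fin N => v i ^ ((j : ℕ) % D) * γ i ^ ((j : ℕ) / D)) i j := by
      ext i j
      rw [Matrix.of_apply, Matrix.of_apply, Matrix.of_apply]
      have h3 : eval (v i) (F.map (Int.castRingHom ℂ)) = q * γ i := by
        rw [← hγ2 i, eval_map, aeval_def]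
        rfl
      simp only [P, eval_mul, eval_pow, eval_X, h3]
      rw [mul_pow]
      ring
    rw [h2, Matrix.det_mul_row, ← Finset.prod_range (fun j => (q : ℂ) ^ (j / D)),
      Finset.prod_pow_eq_pow_sum]

/-- lower bound for the Vandermonde determinant -/
theorem det_lower {N : ℕ} (v : Fin N → ℂ) (hinj : Function.Injective v)
    (hint : ∀ i, IsIntegral ℤ (v i)) (hs : ∀ j : ℕ, ∃ m : ℤ, ∑ i, v i ^ j = m)
    (F : ℤ[X]) (hF : F.Monic) (q : ℕ) (hq : 0 < q)
    (hval : ∀ i, ∃ γ : ℂ, IsIntegral ℤ γ ∧ aeval (v i) F = q * γ) :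
    (q : ℝ) ^ (2 * ∑ j ∈ Finset.range N, j / F.natDegree) ≤ ‖(Matrix.vandermonde v).det‖ ^ 2 := by
  obtain ⟨r, hr⟩ := det_sq_int v hs
  obtain ⟨δ, hδ1, hδ2⟩ := vand_div v hint F hF q hval
  set S := ∑ j ∈ Finset.range N, j / F.natDegree with hS
  have hq0 : (q : ℂ) ≠ 0 := by exact_mod_cast hq.ne'
  have h1 : δ ^ 2 = algebraMap ℚ ℂ ((r : ℚ) / (q : ℚ) ^ (2 * S)) := by
    rw [map_div₀, map_pow, map_intCast, map_natCast, eq_div_iff (pow_ne_zero _ hq0), ← hr, hδ2]
    ring
  have h2 : IsIntegral ℤ ((r : ℚ) / (q : ℚ) ^ (2 * S)) := by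
    rw [← isIntegral_algebraMap_iff (B := ℂ) (algebraMap ℚ ℂ).injective, ← h1]
    exact hδ1.pow 2
  obtain ⟨k, hk⟩ := IsIntegrallyClosed.isIntegral_iff.mp h2
  have hq0' : (q : ℚ) ≠ 0 := by exact_mod_cast hq.ne'
  have h3 : r = k * (q : ℤ) ^ (2 * S) := by
    rw [eq_intCast, eq_div_iff (pow_ne_zero _ hq0')] at hk
    exact_mod_cast hk.symm
  have hD : (Matrix.vandermonde v).det ≠ 0 := Matrix.det_vandermonde_ne_zero_iff.mpr hinj
  have hr0 : r ≠ 0 := by
    rintro rfl
    rw [Int.cast_zero] at hr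
    exact hD (pow_eq_zero_iff (two_ne_zero) |>.mp hr)
  have h4 : (q : ℤ) ^ (2 * S) ≤ |r| :=
    Int.le_of_dvd (abs_pos.mpr hr0) ((dvd_abs _ _).mpr ⟨k, by rw [h3]; ring⟩)
  have h5 : ‖(Matrix.vandermonde v).det‖ ^ 2 = ((|r| : ℤ) : ℝ) := by
    rw [← norm_pow, hr, Complex.norm_intCast, Int.cast_abs]
  rw [h5]
  exact_mod_cast h4

/-- **the determinant inequality for a modulus `q`** -/
theorem gen_ineq {ι : Type*} [Fintype ι] [Nonempty ι] (v : ι → ℂ)
    (hinj : Function.Injective v) (hint : ∀ i, IsIntegral ℤ (v i))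
    (hs : ∀ j : ℕ, ∃ m : ℤ, ∑ i, v i ^ j = m)
    (F : ℤ[X]) (hFm : F.Monic) (hFt : 0 < F.natDegree) (q : ℕ) (hq : 1 < q)
    (hval : ∀ i, ∃ γ : ℂ, IsIntegral ℤ γ ∧ aeval (v i) F = q * γ) :
    ((Fintype.card ι : ℝ) - F.natDegree) * Real.log q ≤
      F.natDegree * (Real.log (Fintype.card ι) + 2 * ∑ i, Real.log (max 1 ‖v i‖)) := by
  classical
  set N := Fintype.card ι with hN
  set t := F.natDegree with ht
  have hN0 : 0 < N := Fintype.card_pos
  let e : Fin N ≃ ι := (Fintype.equivFin ι).symm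
  set w : Fin N → ℂ := fun i => v (e i) with hw
  have h1 := det_lower w (hinj.comp e.injective) (fun i => hint _) (fun j => by
    obtain ⟨m, hm⟩ := hs j
    exact ⟨m, by rw [← hm]; exact Fintype.sum_equiv e _ _ fun i => rfl⟩) F hFm q (by omega)
      (fun i => hval _)
  have h2 := vandermonde_le w
  have hp1 : (1 : ℝ) < q := by exact_mod_cast hq
  have hlogp : 0 < Real.log q := Real.log_pos hp1
  have h3 := h1.trans h2
  set S := ∑ m ∈ Finset.range N, m / t with hS
  have hsb := sum_bound' t hFt N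
  rw [← hS] at hsb
  have hsb' : (N : ℝ) * ((N : ℝ) - t) ≤ 2 * t * S := by exact_mod_cast hsb
  have hN1 : (0 : ℝ) < N := by exact_mod_cast hN0
  have h4 : 2 * (S : ℝ) * Real.log q ≤ N * Real.log N +
      2 * (N - 1) * ∑ i, Real.log (max 1 ‖v i‖) := by
    have h5 := Real.log_le_log (by positivity) h3
    have hmax : ∀ i, (0:ℝ) < max 1 ‖w i‖ := fun i => lt_of_lt_of_le one_pos (le_max_left _ _)
    have hpos : ∀ i ∈ (Finset.univ : Finset (Fin N)), (max 1 ‖w i‖) ^ (2 * (N - 1)) ≠ 0 :=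
      fun i _ => (pow_pos (hmax i) _).ne'
    rw [Real.log_pow, Real.log_mul (by positivity) (Finset.prod_ne_zero_iff.mpr hpos),
      Real.log_pow, Real.log_prod hpos] at h5
    simp_rw [Real.log_pow] at h5
    rw [← Finset.mul_sum] at h5
    have h6 : ∑ i, Real.log (max 1 ‖w i‖) = ∑ i, Real.log (max 1 ‖v i‖) :=
      Fintype.sum_equiv e _ _ fun i => rfl
    rw [h6] at h5
    push_cast [Nat.cast_sub hN0] at h5
    linarith
  have hsum : 0 ≤ ∑ i, Real.log (max 1 ‖v i‖) :=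
    Finset.sum_nonneg fun _ _ => Real.log_nonneg (le_max_left _ _)
  have ht0 : (0:ℝ) < t := by exact_mod_cast hFt
  have h7 : (N : ℝ) * (((N : ℝ) - t) * Real.log q) ≤
      N * (t * (Real.log N + 2 * ∑ i, Real.log (max 1 ‖v i‖))) := by
    calc (N : ℝ) * (((N : ℝ) - t) * Real.log q) = (N : ℝ) * ((N : ℝ) - t) * Real.log q := by ring
      _ ≤ 2 * t * S * Real.log q := mul_le_mul_of_nonneg_right hsb' hlogp.le
      _ = t * (2 * S * Real.log q) := by ring
      _ ≤ t * (N * Real.log N + 2 * (N - 1) * ∑ i, Real.log (max 1 ‖v i‖)) :=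
          mul_le_mul_of_nonneg_left h4 ht0.le
      _ ≤ t * (N * (Real.log N + 2 * ∑ i, Real.log (max 1 ‖v i‖))) := by
          apply mul_le_mul_of_nonneg_left _ ht0.le
          nlinarith
      _ = _ := by ring
  exact le_of_mul_le_mul_left h7 hN1

end Pool.Agent.TH860.LP
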