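import Mathlib
import Pool.Agent.TH53.SL5
import Pool.Agent.TH860.LP.Core

/-!
# Polynomials that divide a polynomial in `X ^ m` modulo `q`
-/

set_option autoImplicit false

open Polynomial Finset Module IntermediateField

namespace Pool.Agent.TH860.LP

open Pool.Agent.TH53.HR Pool.Agent.TH53.SL Pool.Agent.H388SL Pool.Agent.H389R3.LR
  Pool.Agent.H389R3.LP

/-- **the core inequality in a number field** -/
theorem field_ineq {K : Type*} [Field K] [NumberField K] {α : K}
    (hα : IsIntegral ℤ α) (m : ℕ) (F : ℤ[X]) (hFm : F.Monic) (hFt : 0 < F.natDegree)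
    (q : ℕ) (hq : 1 < q) (hF : ∃ δ : K, IsIntegral ℤ δ ∧ aeval (α ^ m) F = q * δ) :
    ∃ x : ℕ, 0 < x ∧ x = (Set.range fun σ : K →ₐ[ℚ] ℂ => σ α ^ m).ncard ∧
    ((x : ℝ) - F.natDegree) * Real.log q ≤
      F.natDegree * (Real.log x + 2 * (x / finrank ℚ K * ((m : ℝ) * lam α))) := by
  classical
  obtain ⟨δ, hδ1, hδ2⟩ := hF
  set β : K := α ^ m with hβ
  have hβi : IsIntegral ℤ β := hα.pow _
  set K' := ℚ⟮β⟯ with hK'
  set γ : K' := AdjoinSimple.gen ℚ β with hγ
  have hγβ : algebraMap K' K γ = β := AdjoinSimple.algebraMap_gen ℚ β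
  have hγi : IsIntegral ℤ γ := by
    rw [← hγβ] at hβi
    exact (isIntegral_algebraMap_iff (algebraMap K' K).injective).mp hβi
  let v : (K' →ₐ[ℚ] ℂ) → ℂ := fun τ => τ γ
  have hvinj : Function.Injective v := by
    intro σ τ h
    apply adjoin_algHom_ext ℚ (s := {β})
    intro x hx
    rw [Set.mem_singleton_iff] at hx
    subst hx
    exact h
  have hint : ∀ u, IsIntegral ℤ (v u) := fun u => hγi.map (u.restrictScalars ℤ)
  have hs : ∀ j : ℕ, ∃ m : ℤ, ∑ u, v u ^ j = m := by
    intro j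
    obtain ⟨m, hm⟩ := trace_int (hγi.pow j)
    refine ⟨m, ?_⟩
    rw [← hm]
    refine Finset.sum_congr rfl fun σ _ => ?_
    rw [map_pow]
  have hmin : minpoly ℚ β = minpoly ℚ γ := by
    rw [← hγβ]
    exact minpoly.algebraMap_eq (algebraMap K' K).injective γ
  have hrange : (Set.range fun σ : K →ₐ[ℚ] ℂ => σ α ^ m) = Set.range v := by
    have h1 := (NumberField.isAlgebraic K).range_eval_eq_rootSet_minpoly ℂ β
    have h2 := (NumberField.isAlgebraic K').range_eval_eq_rootSet_minpoly ℂ γ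
    have h3 : (fun σ : K →ₐ[ℚ] ℂ => σ α ^ m) = fun σ : K →ₐ[ℚ] ℂ => σ β := by
      funext σ
      rw [hβ, map_pow]
    rw [h3, h1, hmin, ← h2]
  have hHF : ∀ u, ∃ γ : ℂ, IsIntegral ℤ γ ∧ aeval (v u) F = q * γ := by
    intro τ
    have h1 : v τ ∈ Set.range fun σ : K →ₐ[ℚ] ℂ => σ α ^ m := by
      rw [hrange]
      exact ⟨τ, rfl⟩
    obtain ⟨σ, hσ⟩ := h1
    simp only at hσ
    refine ⟨σ δ, hδ1.map (σ.restrictScalars ℤ), ?_⟩
    have h2 : aeval (v τ) F = σ (aeval β F) := by
      rw [← hσ, ← map_pow, ← hβ]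
      exact aeval_algHom_apply (σ.restrictScalars ℤ) β F
    rw [h2, hδ2, map_mul, map_natCast]
  have hn : Fintype.card (K' →ₐ[ℚ] ℂ) = finrank ℚ K' := AlgHom.card ℚ K' ℂ
  have hne : Nonempty (K' →ₐ[ℚ] ℂ) := by
    rw [← Fintype.card_pos_iff, hn]
    exact finrank_pos
  have h := gen_ineq v hvinj hint hs F hFm hFt q hq hHF
  rw [hn] at h
  -- the sum
  have hlam : lam β = finrank K' K * ∑ u, Real.log (max 1 ‖v u‖) := by
    have h1 := prod_emb β (fun z => max 1 ‖z‖)
    have hpos : ∀ z : ℂ, (max 1 ‖z‖ : ℝ) ≠ 0 := fun z =>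
      (lt_of_lt_of_le one_pos (le_max_left _ _)).ne'
    have h2 := congrArg Real.log h1
    rw [Real.log_prod (fun σ _ => hpos _), Real.log_pow, Real.log_prod (fun σ _ => hpos _)] at h2
    exact h2
  have hdeg : finrank ℚ K' * finrank K' K = finrank ℚ K := finrank_mul_finrank ℚ K' K
  have hx0 : 0 < finrank ℚ K' := finrank_pos
  have hy0 : 0 < finrank K' K := finrank_pos
  have hx0' : (0 : ℝ) < finrank ℚ K' := by exact_mod_cast hx0
  have hy0' : (0 : ℝ) < finrank K' K := by exact_mod_cast hy0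
  have hsum : ∑ u, Real.log (max 1 ‖v u‖) = finrank ℚ K' / finrank ℚ K * ((m : ℝ) * lam α) := by
    have h1 : lam β = (m : ℝ) * lam α := by
      rw [hβ, lam_pow]
    rw [← h1, hlam, ← hdeg]
    push_cast
    field_simp
  rw [hsum] at h
  refine ⟨finrank ℚ K', hx0, ?_, h⟩
  rw [hrange, ← Set.image_univ, Set.ncard_image_of_injective _ hvinj, Set.ncard_univ,
    Nat.card_eq_fintype_card, hn]

/-- the number of distinct `m`-th powers of the complex zeros of `f` -/
noncomputable def powZeros (m : ℕ) (f : ℤ[X]) : ℕ :=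
  ((fun z : ℂ => z ^ m) '' (f.rootSet ℂ)).ncard

/-- **the inequality for monic irreducible polynomials** -/
theorem poly_ineq (f : ℤ[X]) (hf : Irreducible f) (hm : f.Monic) (q m : ℕ) (hq : 1 < q)
    (G : ℤ[X]) (hGm : G.Monic) (hG0 : 0 < G.natDegree)
    (hdvd : ∃ A B : ℤ[X], G.comp (X ^ m) = A * f + C (q : ℤ) * B) :
    0 < powZeros m f ∧
      ((powZeros m f : ℝ) - G.natDegree) * Real.log q ≤ G.natDegree * (Real.log (powZeros m f) +
        2 * (powZeros m f / f.natDegree *
          ((m : ℝ) * Real.log (f.map (Int.castRingHom ℂ)).mahlerMeasure))) := by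
  classical
  have hdeg : f.natDegree ≠ 0 := by
    intro h
    have := hm.natDegree_eq_zero.mp h
    exact hf.not_isUnit (this ▸ isUnit_one)
  obtain ⟨z, hz⟩ := IsAlgClosed.exists_aeval_eq_zero ℂ f (by
    intro h
    exact hdeg (natDegree_eq_of_degree_eq_some h))
  have hzi : IsIntegral ℤ z := ⟨f, hm, by rw [← Polynomial.aeval_def]; exact hz⟩
  have hzQ : IsIntegral ℚ z := hzi.tower_top
  have hmin : minpoly ℤ z = f := by
    have h1 := minpoly.isIntegrallyClosed_dvd hzi hz
    have h2 : Associated (minpoly ℤ z) f :=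
      (minpoly.irreducible hzi).associated_of_dvd hf h1
    exact eq_of_monic_of_associated (minpoly.monic hzi) hm h2
  set L := adjoin ℚ {z} with hL
  have hfin : FiniteDimensional ℚ L := adjoin.finiteDimensional hzQ
  have : NumberField L := { to_charZero := inferInstance, to_finiteDimensional := hfin }
  set α : L := AdjoinSimple.gen ℚ z with hα
  have hαz : algebraMap L ℂ α = z := AdjoinSimple.algebraMap_gen ℚ z
  have hαi : IsIntegral ℤ α := by
    rw [← hαz] at hzi
    exact (isIntegral_algebraMap_iff (algebraMap L ℂ).injective).mp hzi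
  have hαc : CInj α := by
    intro σ τ h
    apply adjoin_algHom_ext ℚ (s := {z})
    intro x hx
    rw [Set.mem_singleton_iff] at hx
    subst hx
    exact h
  have hminα : minpoly ℤ α = f := by
    rw [← hmin, ← hαz]
    exact (minpoly.algebraMap_eq (algebraMap L ℂ).injective α).symm
  have hpmap : f.map (Int.castRingHom ℂ) = ∏ τ : L →ₐ[ℚ] ℂ, (X - C (τ α)) := by
    rw [← minpoly_map_eq hαc, minpoly.isIntegrallyClosed_eq_field_fractions' ℚ hαi, hminα,
      Polynomial.map_map]
    rfl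
  have hMM : Real.log (f.map (Int.castRingHom ℂ)).mahlerMeasure = lam α := by
    rw [hpmap]
    have h1 : (∏ τ : L →ₐ[ℚ] ℂ, (X - C (τ α))).mahlerMeasure = ∏ τ : L →ₐ[ℚ] ℂ, max 1 ‖τ α‖ := by
      rw [Finset.prod_eq_multiset_prod, prod_mahlerMeasure_eq_mahlerMeasure_prod, Multiset.map_map,
        Finset.prod_eq_multiset_prod]
      congr 1
      refine Multiset.map_congr rfl fun τ _ => ?_
      rw [Function.comp_apply, mahlerMeasure_X_sub_C]
    rw [h1, Real.log_prod]
    · rfl
    · intro τ _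
      have : (0:ℝ) < max 1 ‖τ α‖ := lt_of_lt_of_le one_pos (le_max_left _ _)
      exact this.ne'
  have hfr : finrank ℚ L = f.natDegree := by
    rw [hL, adjoin.finrank hzQ, minpoly.isIntegrallyClosed_eq_field_fractions' ℚ hzi, hmin]
    exact natDegree_map_eq_of_injective (algebraMap ℤ ℚ).injective_int f
  have hroots : f.rootSet ℂ = Set.range fun σ : L →ₐ[ℚ] ℂ => σ α := by
    rw [(NumberField.isAlgebraic L).range_eval_eq_rootSet_minpoly ℂ α,
      minpoly.isIntegrallyClosed_eq_field_fractions' ℚ hαi, hminα]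
    ext w
    rw [mem_rootSet_of_ne hm.ne_zero, mem_rootSet_of_ne (hm.map _).ne_zero, aeval_map_algebraMap]
  have hα0 : aeval α f = 0 := by rw [← hminα]; exact minpoly.aeval ℤ α
  have hGα : ∃ δ : L, IsIntegral ℤ δ ∧ aeval (α ^ m) G = q * δ := by
    obtain ⟨A, B, hAB⟩ := hdvd
    refine ⟨aeval α B, ?_, ?_⟩
    · exact adjoin_le_integralClosure hαi (aeval_mem_adjoin_singleton ℤ α)
    · have h1 := congrArg (aeval α) hAB
      rw [aeval_comp, map_pow, aeval_X, map_add, map_mul, hα0, mul_zero, zero_add, map_mul,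
        aeval_C] at h1
      rw [h1]
      simp
  obtain ⟨x, hx0, hx, h⟩ := field_ineq hαi m G hGm hG0 q hq hGα
  have hxp : x = powZeros m f := by
    rw [hx]
    unfold powZeros
    rw [hroots, ← Set.range_comp]
    rfl
  rw [hfr, ← hMM, hxp] at h
  exact ⟨hxp ▸ hx0, h⟩

end Pool.Agent.TH860.LP
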