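import Mathlib
import Pool.Agent.TH53.SL6
import Pool.Agent.TH860.LP.Poly

/-!
# Consequences for Lehmer's problem and for Salem numbers
-/

set_option autoImplicit false

open Polynomial

namespace Pool.Agent.TH860.LP

open Pool.Agent.TH53.HR Pool.Agent.TH53.SL Pool.Agent.H389R3.PR

/-- Lehmer's polynomial -/
noncomputable def Leh : ℤ[X] := X ^ 10 + X ^ 9 - X ^ 7 - X ^ 6 - X ^ 5 - X ^ 4 - X ^ 3 + X + 1

lemma powZeros_neg (m : ℕ) (f : ℤ[X]) : powZeros m (-f) = powZeros m f := by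
  unfold powZeros
  rw [rootSet_neg]

/-- **the bound `M(f) ≥ 2 ^ (1/4)`** -/
theorem quarter_bound (f : ℤ[X]) (hf : Irreducible f)
    (hM : 1 < (f.map (Int.castRingHom ℂ)).mahlerMeasure) (q m : ℕ) (hq : 1 < q) (hm : 1 ≤ m)
    (G : ℤ[X]) (hGm : G.Monic) (hG0 : 0 < G.natDegree)
    (hdvd : ∃ A B : ℤ[X], G.comp (X ^ m) = A * f + C (q : ℤ) * B)
    (h : (G.natDegree : ℝ) * (Real.log (powZeros m f) +
      m * powZeros m f / (2 * f.natDegree) * Real.log 2) ≤
      ((powZeros m f : ℝ) - G.natDegree) * Real.log q) :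
    (2 : ℝ) ^ ((1 : ℝ) / 4) ≤ (f.map (Int.castRingHom ℂ)).mahlerMeasure := by
  by_contra hcon
  push Not at hcon
  have h2 : (2 : ℝ) ^ ((1 : ℝ) / 4) ≤ 2 := by
    calc (2 : ℝ) ^ ((1 : ℝ) / 4) ≤ (2 : ℝ) ^ (1 : ℝ) :=
          Real.rpow_le_rpow_of_exponent_le (by norm_num) (by norm_num)
      _ = 2 := Real.rpow_one 2
  refine monic_or_neg f hf hM (hcon.trans_le h2) (Q := fun g =>
    (∃ A B : ℤ[X], G.comp (X ^ m) = A * g + C (q : ℤ) * B) ∧
    (G.natDegree : ℝ) * (Real.log (powZeros m g) +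
      m * powZeros m g / (2 * g.natDegree) * Real.log 2) ≤
      ((powZeros m g : ℝ) - G.natDegree) * Real.log q) ?_ ?_ ⟨hdvd, h⟩
  · rintro ⟨⟨A, B, hAB⟩, h3⟩
    refine ⟨⟨-A, B, by rw [hAB]; ring⟩, ?_⟩
    rw [powZeros_neg, natDegree_neg]
    exact h3
  · rintro g hg hgm hgM hgMf - ⟨h1, h3⟩
    obtain ⟨h4, h5⟩ := poly_ineq g hg hgm q m hq G hGm hG0 h1
    rw [hgMf] at h5
    set x := powZeros m g with hx
    have hx0 : (0 : ℝ) < x := by exact_mod_cast h4
    have hm0 : (0 : ℝ) < m := by exact_mod_cast hm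
    have hG0' : (0 : ℝ) < G.natDegree := by exact_mod_cast hG0
    have hd0 : (0 : ℝ) < g.natDegree := by
      have : g.natDegree ≠ 0 := by
        intro h
        have := hgm.natDegree_eq_zero.mp h
        exact hg.not_isUnit (this ▸ isUnit_one)
      exact_mod_cast Nat.pos_of_ne_zero this
    have hlM : Real.log (f.map (Int.castRingHom ℂ)).mahlerMeasure < Real.log 2 / 4 := by
      have h6 := Real.log_lt_log (by linarith) hcon
      rw [Real.log_rpow (by norm_num)] at h6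
      linarith
    have h7 : (G.natDegree : ℝ) * (2 * (x / g.natDegree *
        ((m : ℝ) * Real.log (f.map (Int.castRingHom ℂ)).mahlerMeasure))) <
        G.natDegree * (m * x / (2 * g.natDegree) * Real.log 2) := by
      have h8 : (G.natDegree : ℝ) * (m * x / (2 * g.natDegree) * Real.log 2) =
          G.natDegree * (2 * (x / g.natDegree * ((m : ℝ) * (Real.log 2 / 4)))) := by
        field_simp
        ring
      rw [h8]
      have h9 : (m : ℝ) * Real.log (f.map (Int.castRingHom ℂ)).mahlerMeasure <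
          (m : ℝ) * (Real.log 2 / 4) := mul_lt_mul_of_pos_left hlM hm0
      have h10 : 0 < (x : ℝ) / g.natDegree := div_pos hx0 hd0
      apply mul_lt_mul_of_pos_left _ hG0'
      apply mul_lt_mul_of_pos_left _ two_pos
      exact mul_lt_mul_of_pos_left h9 h10
    rw [mul_add] at h3 h5
    linarith

/-- the polynomial in `X ^ m` made of the coefficients with exponents divisible by `m` -/
theorem gap_poly (f : ℤ[X]) (hf : f.Monic) (hf0 : 0 < f.natDegree) (q m : ℕ) (hq : 1 < q)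
    (hm : 1 ≤ m) (hc : ∀ i, ¬ m ∣ i → (q : ℤ) ∣ f.coeff i) :
    ∃ G : ℤ[X], G.Monic ∧ 0 < G.natDegree ∧ f.natDegree = m * G.natDegree ∧
      ∃ A B : ℤ[X], G.comp (X ^ m) = A * f + C (q : ℤ) * B := by
  have hmd : m ∣ f.natDegree := by
    by_contra h
    have h1 := hc _ h
    rw [coeff_natDegree, hf.leadingCoeff] at h1
    have h2 := Int.le_of_dvd one_pos h1
    have : (1 : ℤ) < q := by exact_mod_cast hq
    linarith
  obtain ⟨k, hk⟩ := hmd
  have hm0 : m ≠ 0 := by omega
  have hcoef : ∀ n, (contract m f).coeff n = f.coeff (n * m) := fun n => coeff_contract hm0 f n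
  have hle : (contract m f).natDegree ≤ k := by
    rw [natDegree_le_iff_coeff_eq_zero]
    intro n hn
    rw [hcoef]
    apply coeff_eq_zero_of_natDegree_lt
    rw [hk, mul_comm]
    exact Nat.mul_lt_mul_of_pos_right hn (by omega)
  have hone : (contract m f).coeff k = 1 := by
    rw [hcoef, mul_comm, ← hk, coeff_natDegree, hf.leadingCoeff]
  have hmon : (contract m f).Monic := monic_of_natDegree_le_of_coeff_eq_one k hle hone
  have hdeg : (contract m f).natDegree = k := by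
    apply le_antisymm hle
    apply le_natDegree_of_ne_zero
    rw [hone]
    exact one_ne_zero
  have hk0 : 0 < k := by
    rcases Nat.eq_zero_or_pos k with h | h
    · rw [h, mul_zero] at hk
      omega
    · exact h
  refine ⟨contract m f, hmon, by rw [hdeg]; exact hk0, by rw [hdeg]; exact hk, 1, ?_⟩
  have h1 : C (q : ℤ) ∣ (contract m f).comp (X ^ m) - f := by
    rw [Polynomial.C_dvd_iff_dvd_coeff]
    intro i
    rw [coeff_sub, ← expand_eq_comp_X_pow, coeff_expand (by omega : 0 < m)]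
    split_ifs with h
    · rw [hcoef, Nat.div_mul_cancel h, sub_self]
      exact dvd_zero _
    · rw [zero_sub]
      exact (dvd_neg).mpr (hc i h)
  obtain ⟨B, hB⟩ := h1
  exact ⟨B, by rw [← hB]; ring⟩

/-- **polynomials whose coefficients at the exponents not divisible by `m` are divisible by `q`** -/
theorem gap_ineq (f : ℤ[X]) (hf : Irreducible f) (hfm : f.Monic) (q m : ℕ) (hq : 1 < q)
    (hm : 1 ≤ m) (hc : ∀ i, ¬ m ∣ i → (q : ℤ) ∣ f.coeff i) (hx : powZeros m f = f.natDegree) :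
    ((m : ℝ) - 1) * Real.log q ≤ Real.log f.natDegree +
      2 * (m * Real.log (f.map (Int.castRingHom ℂ)).mahlerMeasure) := by
  have hf0 : 0 < f.natDegree := by
    apply Nat.pos_of_ne_zero
    intro h
    have := hfm.natDegree_eq_zero.mp h
    exact hf.not_isUnit (this ▸ isUnit_one)
  obtain ⟨G, hGm, hG0, hd, hdvd⟩ := gap_poly f hfm hf0 q m hq hm hc
  obtain ⟨-, h⟩ := poly_ineq f hf hfm q m hq G hGm hG0 hdvd
  rw [hx] at h
  have hd0 : (0 : ℝ) < f.natDegree := by exact_mod_cast hf0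
  have hG0' : (0 : ℝ) < G.natDegree := by exact_mod_cast hG0
  have hd' : (f.natDegree : ℝ) = m * G.natDegree := by exact_mod_cast hd
  rw [div_self hd0.ne', one_mul] at h
  have h2 : (G.natDegree : ℝ) * (((m : ℝ) - 1) * Real.log q) ≤ G.natDegree *
      (Real.log f.natDegree + 2 * (m * Real.log (f.map (Int.castRingHom ℂ)).mahlerMeasure)) := by
    calc (G.natDegree : ℝ) * (((m : ℝ) - 1) * Real.log q)
        = (m * G.natDegree - G.natDegree) * Real.log q := by ring
      _ = ((f.natDegree : ℝ) - G.natDegree) * Real.log q := by rw [← hd']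
      _ ≤ _ := h
  exact le_of_mul_le_mul_left h2 hG0'

theorem gap_pow (f : ℤ[X]) (hf : Irreducible f) (hfm : f.Monic) (q m : ℕ) (hq : 1 < q)
    (hm : 1 ≤ m) (hc : ∀ i, ¬ m ∣ i → (q : ℤ) ∣ f.coeff i) (hx : powZeros m f = f.natDegree)
    (hM : 0 < (f.map (Int.castRingHom ℂ)).mahlerMeasure) :
    (q : ℝ) ^ (m - 1) ≤ f.natDegree * (f.map (Int.castRingHom ℂ)).mahlerMeasure ^ (2 * m) := by
  have h := gap_ineq f hf hfm q m hq hm hc hx
  have hf0 : 0 < f.natDegree := by
    apply Nat.pos_of_ne_zero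
    intro h
    have := hfm.natDegree_eq_zero.mp h
    exact hf.not_isUnit (this ▸ isUnit_one)
  have hd0 : (0 : ℝ) < f.natDegree := by exact_mod_cast hf0
  have hq0 : (0 : ℝ) < q := by exact_mod_cast (by omega : 0 < q)
  rw [← Real.log_le_log_iff (pow_pos hq0 _) (mul_pos hd0 (pow_pos hM _)), Real.log_pow,
    Real.log_mul hd0.ne' (pow_pos hM _).ne', Real.log_pow]
  push_cast [Nat.cast_sub hm]
  linarith

/-- gaps and Lehmer's problem -/
theorem gap_quarter (f : ℤ[X]) (hf : Irreducible f)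
    (hM : 1 < (f.map (Int.castRingHom ℂ)).mahlerMeasure) (q m : ℕ) (hq : 1 < q) (hm : 1 ≤ m)
    (hc : ∀ i, ¬ m ∣ i → (q : ℤ) ∣ f.coeff i) (hx : powZeros m f = f.natDegree)
    (h : f.natDegree ^ 2 * 2 ^ m ≤ q ^ (2 * (m - 1))) :
    (2 : ℝ) ^ ((1 : ℝ) / 4) ≤ (f.map (Int.castRingHom ℂ)).mahlerMeasure := by
  by_contra hcon
  push Not at hcon
  have h2 : (2 : ℝ) ^ ((1 : ℝ) / 4) ≤ 2 := by
    calc (2 : ℝ) ^ ((1 : ℝ) / 4) ≤ (2 : ℝ) ^ (1 : ℝ) :=
          Real.rpow_le_rpow_of_exponent_le (by norm_num) (by norm_num)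
      _ = 2 := Real.rpow_one 2
  refine monic_or_neg f hf hM (hcon.trans_le h2) (Q := fun g =>
    (∀ i, ¬ m ∣ i → (q : ℤ) ∣ g.coeff i) ∧ powZeros m g = g.natDegree ∧
      g.natDegree ^ 2 * 2 ^ m ≤ q ^ (2 * (m - 1))) ?_ ?_ ⟨hc, hx, h⟩
  · rintro ⟨h1, h3, h4⟩
    refine ⟨fun i hi => ?_, ?_, ?_⟩
    · rw [coeff_neg]
      exact (dvd_neg).mpr (h1 i hi)
    · rw [powZeros_neg, natDegree_neg]
      exact h3
    · rw [natDegree_neg]
      exact h4
  · rintro g hg hgm hgM hgMf - ⟨h1, h3, h4⟩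
    have h5 := gap_ineq g hg hgm q m hq hm h1 h3
    rw [hgMf] at h5
    have hf0 : 0 < g.natDegree := by
      apply Nat.pos_of_ne_zero
      intro h
      have := hgm.natDegree_eq_zero.mp h
      exact hg.not_isUnit (this ▸ isUnit_one)
    have hd0 : (0 : ℝ) < g.natDegree := by exact_mod_cast hf0
    have hq0 : (0 : ℝ) < q := by exact_mod_cast (by omega : 0 < q)
    have hm0 : (0 : ℝ) < m := by exact_mod_cast hm
    have h4' : (g.natDegree : ℝ) ^ 2 * 2 ^ m ≤ (q : ℝ) ^ (2 * (m - 1)) := by exact_mod_cast h4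
    have h6 := Real.log_le_log (by positivity) h4'
    rw [Real.log_mul (by positivity) (by positivity), Real.log_pow, Real.log_pow,
      Real.log_pow] at h6
    push_cast [Nat.cast_sub hm] at h6
    have hlM : Real.log (f.map (Int.castRingHom ℂ)).mahlerMeasure < Real.log 2 / 4 := by
      have h6 := Real.log_lt_log (by linarith) hcon
      rw [Real.log_rpow (by norm_num)] at h6
      linarith
    have h9 : (m : ℝ) * Real.log (f.map (Int.castRingHom ℂ)).mahlerMeasure <
        (m : ℝ) * (Real.log 2 / 4) := mul_lt_mul_of_pos_left hlM hm0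
    linarith

/-! ### Salem and Pisot numbers -/

/-- **the inequality for Salem and Pisot numbers** -/
theorem salem_ineq {β : ℝ} (hβ1 : 1 < β) (hβ : IsIntegral ℤ β)
    (hone : ∀ z : ℂ, aeval z (minpoly ℤ β) = 0 → z ≠ (β : ℂ) → ‖z‖ ≤ 1) (q m : ℕ) (hq : 1 < q)
    (hm : 1 ≤ m) (G : ℤ[X]) (hGm : G.Monic) (hG0 : 0 < G.natDegree)
    (hdvd : ∃ A B : ℤ[X], G.comp (X ^ m) = A * minpoly ℤ β + C (q : ℤ) * B) :
    (((minpoly ℤ β).natDegree : ℝ) - G.natDegree) * Real.log q ≤
      G.natDegree * (Real.log (minpoly ℤ β).natDegree + 2 * (m * Real.log β)) := by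
  classical
  have hM := mahler_eq hβ1 hβ hone
  set f := minpoly ℤ β with hf
  have hfm : f.Monic := minpoly.monic hβ
  have hirr : Irreducible f := minpoly.irreducible hβ
  have hd0 : 0 < f.natDegree := minpoly.natDegree_pos hβ
  have hx : powZeros m f = f.natDegree := by
    unfold powZeros
    rw [Set.InjOn.ncard_image]
    · rw [rootSet_def, Set.ncard_coe_finset, aroots_def]
      have hsep : (f.map (algebraMap ℤ ℂ)).Separable := by
        have h1 : f.map (algebraMap ℤ ℂ) = (f.map (algebraMap ℤ ℚ)).map (algebraMap ℚ ℂ) := by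
          rw [Polynomial.map_map]
          rfl
        rw [h1, Polynomial.separable_map]
        have h2 : Irreducible (f.map (algebraMap ℤ ℚ)) :=
          (hfm.irreducible_iff_irreducible_map_fraction_map (K := ℚ)).mp hirr
        exact h2.separable
      rw [Multiset.toFinset_card_of_nodup (nodup_roots hsep),
        ← (IsAlgClosed.splits (f.map (algebraMap ℤ ℂ))).natDegree_eq_card_roots,
        hfm.natDegree_map]
    · intro z hz w hw h
      have hz' := (mem_rootSet.mp hz).2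
      have hw' := (mem_rootSet.mp hw).2
      exact salem_nondeg hβ1 hβ hone hz' hw' (by omega) h
  obtain ⟨-, h⟩ := poly_ineq f hirr hfm q m hq G hGm hG0 hdvd
  have hd0' : (f.natDegree : ℝ) ≠ 0 := by exact_mod_cast hd0.ne'
  rw [hx, hM, div_self hd0', one_mul] at h
  exact h

/-- **Parry powers** -/
theorem parry_finite' {β : ℝ} (hβ1 : 1 < β) (hβ : IsIntegral ℤ β)
    (hP : ∀ z : ℂ, aeval z (minpoly ℤ β) = 0 → z ≠ (β : ℂ) → ‖z‖ < β) (q m : ℕ) (hq : 1 < q)
    (hm : 1 ≤ m) (G : ℤ[X]) (hGm : G.Monic) (hG0 : 0 < G.natDegree)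
    (hdvd : ∃ A B : ℤ[X], G.comp (X ^ m) = A * minpoly ℤ β + C (q : ℤ) * B)
    (h : (G.natDegree : ℝ) * (Real.log (minpoly ℤ β).natDegree + 2 * m * Real.log β) <
      (((minpoly ℤ β).natDegree : ℝ) - G.natDegree) * Real.log q) : (parry β).Finite := by
  by_contra hinf
  have h1 := salem_ineq hβ1 hβ (fun z hz hne => conj_le_one hβ1 hβ hP hinf hz hne) q m hq hm G hGm
    hG0 hdvd
  rw [← mul_assoc 2 (m : ℝ)] at h1
  linarith

/-- Parry powers, gaps -/
theorem parry_gap {β : ℝ} (hβ1 : 1 < β) (hβ : IsIntegral ℤ β)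
    (hP : ∀ z : ℂ, aeval z (minpoly ℤ β) = 0 → z ≠ (β : ℂ) → ‖z‖ < β) (q m : ℕ) (hq : 1 < q)
    (hm : 1 ≤ m) (hc : ∀ i, ¬ m ∣ i → (q : ℤ) ∣ (minpoly ℤ β).coeff i)
    (h : (minpoly ℤ β).natDegree * β ^ (2 * m) < (q : ℝ) ^ (m - 1)) : (parry β).Finite := by
  have hd0 : 0 < (minpoly ℤ β).natDegree := minpoly.natDegree_pos hβ
  obtain ⟨G, hGm, hG0, hd, hdvd⟩ := gap_poly _ (minpoly.monic hβ) hd0 q m hq hm hc
  apply parry_finite' hβ1 hβ hP q m hq hm G hGm hG0 hdvd
  have hd' : ((minpoly ℤ β).natDegree : ℝ) = m * G.natDegree := by exact_mod_cast hd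
  have hG0' : (0 : ℝ) < G.natDegree := by exact_mod_cast hG0
  have hd0' : (0 : ℝ) < (minpoly ℤ β).natDegree := by exact_mod_cast hd0
  have hβ0 : 0 < β := by linarith
  have h1 := Real.log_lt_log (by positivity) h
  rw [Real.log_mul (by positivity) (by positivity), Real.log_pow, Real.log_pow] at h1
  push_cast [Nat.cast_sub hm] at h1
  calc (G.natDegree : ℝ) * (Real.log (minpoly ℤ β).natDegree + 2 * m * Real.log β)
      < G.natDegree * ((m - 1) * Real.log q) := mul_lt_mul_of_pos_left h1 hG0'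
    _ = (m * G.natDegree - G.natDegree) * Real.log q := by ring
    _ = _ := by rw [← hd']

end Pool.Agent.TH860.LP
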