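import Mathlib
import Pool.Agent.TH860.LP.Poly

/-!
# The determinant inequality relative to an arbitrary field
-/

set_option autoImplicit false

open Polynomial Finset Module IntermediateField

namespace Pool.Agent.TH860.LP

open Pool.Agent.TH53.HR Pool.Agent.TH53.SL Pool.Agent.H388SL Pool.Agent.H389R3.LR
  Pool.Agent.H389R3.LP

/-- divisibility of the Vandermonde determinant -/
theorem vand_div' {N : ℕ} (v : Fin N → ℂ) (hint : ∀ i, IsIntegral ℤ (v i)) (F : ℂ[X])
    (hF : F.Monic) (q : ℕ)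
    (hval : ∀ i, ∃ γ : ℂ, IsIntegral ℤ γ ∧ F.eval (v i) = q * γ) :
    ∃ δ : ℂ, IsIntegral ℤ δ ∧
      (Matrix.vandermonde v).det = (q : ℂ) ^ (∑ j ∈ Finset.range N, j / F.natDegree) * δ := by
  choose γ hγ1 hγ2 using hval
  set D := F.natDegree with hD
  let P : Fin N → ℂ[X] := fun j => X ^ ((j : ℕ) % D) * F ^ ((j : ℕ) / D)
  have hPm : ∀ j, (P j).Monic := fun j => (monic_X_pow _).mul (hF.pow _)
  have hPd : ∀ j, (P j).natDegree = j := by
    intro j
    have h1 : (P j).natDegree = (j : ℕ) % D + ((j : ℕ) / D) * D := by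
      rw [(monic_X_pow _).natDegree_mul (hF.pow _), natDegree_X_pow, hF.natDegree_pow]
    rw [h1, mul_comm, Nat.mod_add_div]
  refine ⟨(Matrix.of fun i j : Fin N => v i ^ ((j : ℕ) % D) * γ i ^ ((j : ℕ) / D)).det, ?_, ?_⟩
  · apply det_int
    intro i j
    rw [Matrix.of_apply]
    exact ((hint i).pow _).mul ((hγ1 i).pow _)
  · rw [Matrix.det_eval_matrixOfPolynomials_eq_det_vandermonde v P hPd hPm]
    have h2 : (Matrix.of fun i j : Fin N => (P j).eval (v i)) =
        Matrix.of fun i j : Fin N => (q : ℂ) ^ ((j : ℕ) / D) *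
          (Matrix.of fun i j : Fin N => v i ^ ((j : ℕ) % D) * γ i ^ ((j : ℕ) / D)) i j := by
      ext i j
      rw [Matrix.of_apply, Matrix.of_apply, Matrix.of_apply]
      simp only [P, eval_mul, eval_pow, eval_X, hγ2 i]
      rw [mul_pow]
      ring
    rw [h2, Matrix.det_mul_row, ← Finset.prod_range (fun j => (q : ℂ) ^ (j / D)),
      Finset.prod_pow_eq_pow_sum]

/-- **the determinant inequality in a number field `L`, for part of the conjugates** -/
theorem rel_core {L : Type*} [Field L] [NumberField L] {N : ℕ} (hN : 0 < N) (w : Fin N → L)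
    (hint : ∀ i, IsIntegral ℤ (w i)) (hinj : Function.Injective w)
    (φ : L →ₐ[ℚ] ℂ) (F : ℂ[X]) (hFm : F.Monic) (hFt : 0 < F.natDegree) (q : ℕ) (hq : 1 < q)
    (hval : ∀ i, ∃ γ : ℂ, IsIntegral ℤ γ ∧ F.eval (φ (w i)) = q * γ) :
    (finrank ℚ L : ℝ) * (((N : ℝ) - F.natDegree) * Real.log q) ≤
      F.natDegree * (finrank ℚ L * Real.log N + 2 * ∑ i, lam (w i)) := by
  classical
  set S := ∑ j ∈ Finset.range N, j / F.natDegree with hS
  set Δ : L := (Matrix.vandermonde w).det with hΔ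
  have hΔ0 : Δ ≠ 0 := Matrix.det_vandermonde_ne_zero_iff.mpr hinj
  have hmap : ∀ σ : L →ₐ[ℚ] ℂ, σ Δ = (Matrix.vandermonde fun i => σ (w i)).det := by
    intro σ
    have h1 := RingHom.map_det (σ : L →+* ℂ) (Matrix.vandermonde w)
    have h2 : (σ : L →+* ℂ).mapMatrix (Matrix.vandermonde w) =
        Matrix.vandermonde fun i => σ (w i) := by
      ext i j
      simp [Matrix.vandermonde_apply]
    rw [h2] at h1
    exact h1
  have hint' : ∀ i, IsIntegral ℤ (φ (w i)) := fun i => (hint i).map (φ.restrictScalars ℤ)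
  obtain ⟨δ, hδ1, hδ2⟩ := vand_div' (fun i => φ (w i)) hint' F hFm q hval
  rw [← hmap, ← hS] at hδ2
  have hq0 : (q : L) ≠ 0 := by exact_mod_cast (by omega : q ≠ 0)
  have hq0' : (q : ℂ) ≠ 0 := by exact_mod_cast (by omega : q ≠ 0)
  set y : L := Δ / (q : L) ^ S with hy
  have hyΔ : Δ = ((q ^ S : ℕ) : L) * y := by
    rw [hy]
    push_cast
    field_simp
  have hy0 : y ≠ 0 := div_ne_zero hΔ0 (pow_ne_zero _ hq0)
  have hyδ : φ y = δ := by
    rw [hy, map_div₀, map_pow, map_natCast, hδ2, mul_comm, mul_div_assoc,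
      div_self (pow_ne_zero _ hq0'), mul_one]
  have hyint : IsIntegral ℤ y := by
    rw [← hyδ] at hδ1
    exact (isIntegral_algHom_iff (φ.restrictScalars ℤ) φ.toRingHom.injective).mp hδ1
  have h1 := pow_le_prod_norm hyint hy0 (q ^ S)
  rw [← hyΔ] at h1
  have h2 : ∀ σ : L →ₐ[ℚ] ℂ, 2 * Real.log ‖σ Δ‖ ≤
      N * Real.log N + 2 * ((N : ℝ) - 1) * ∑ i, Real.log (max 1 ‖σ (w i)‖) := by
    intro σ
    have h3 := vandermonde_le (fun i => σ (w i))
    rw [← hmap] at h3
    have hσ : 0 < ‖σ Δ‖ := norm_pos_iff.mpr ((map_ne_zero_iff σ σ.toRingHom.injective).mpr hΔ0)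
    have h5 := Real.log_le_log (by positivity) h3
    have hmax : ∀ i, (0:ℝ) < max 1 ‖σ (w i)‖ := fun i => lt_of_lt_of_le one_pos (le_max_left _ _)
    have hpos : ∀ i ∈ (Finset.univ : Finset (Fin N)), (max 1 ‖σ (w i)‖) ^ (2 * (N - 1)) ≠ 0 :=
      fun i _ => (pow_pos (hmax i) _).ne'
    have hN1 : (0 : ℝ) < N := by exact_mod_cast hN
    rw [Real.log_pow, Real.log_mul (by positivity) (Finset.prod_ne_zero_iff.mpr hpos),
      Real.log_pow, Real.log_prod hpos] at h5
    simp_rw [Real.log_pow] at h5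
    rw [← Finset.mul_sum] at h5
    push_cast [Nat.cast_sub hN] at h5
    linarith
  have h3 : 2 * (S : ℝ) * Real.log q * finrank ℚ L ≤
      finrank ℚ L * (N * Real.log N) + 2 * ((N : ℝ) - 1) * ∑ i, lam (w i) := by
    have hσ : ∀ σ : L →ₐ[ℚ] ℂ, 0 < ‖σ Δ‖ := fun σ =>
      norm_pos_iff.mpr ((map_ne_zero_iff σ σ.toRingHom.injective).mpr hΔ0)
    have hqr : (0 : ℝ) < q := by exact_mod_cast (by omega : 0 < q)
    have h4 := Real.log_le_log (by push_cast; positivity) h1
    rw [Real.log_pow, Nat.cast_pow, Real.log_pow, Real.log_prod (fun σ _ => (hσ σ).ne')] at h4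
    have h5 := Finset.sum_le_sum fun (σ : L →ₐ[ℚ] ℂ) (_ : σ ∈ Finset.univ) => h2 σ
    rw [← Finset.mul_sum, Finset.sum_add_distrib, Finset.sum_const, Finset.card_univ, AlgHom.card,
      nsmul_eq_mul, ← Finset.mul_sum, Finset.sum_comm] at h5
    calc 2 * (S : ℝ) * Real.log q * finrank ℚ L = 2 * (finrank ℚ L * (S * Real.log q)) := by ring
      _ ≤ 2 * ∑ σ : L →ₐ[ℚ] ℂ, Real.log ‖σ Δ‖ := by linarith
      _ ≤ _ := h5
  have hsb := sum_bound' F.natDegree hFt N
  rw [← hS] at hsb
  have hsb' : (N : ℝ) * ((N : ℝ) - F.natDegree) ≤ 2 * F.natDegree * S := by exact_mod_cast hsb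
  have hN1 : (0 : ℝ) < N := by exact_mod_cast hN
  have hp1 : (1 : ℝ) < q := by exact_mod_cast hq
  have hlogq : 0 < Real.log q := Real.log_pos hp1
  have hfr : (0 : ℝ) < finrank ℚ L := by exact_mod_cast finrank_pos (R := ℚ) (M := L)
  have hsum : 0 ≤ ∑ i, lam (w i) := Finset.sum_nonneg fun _ _ => lam_nonneg _
  have ht0 : (0:ℝ) < F.natDegree := by exact_mod_cast hFt
  have h7 : (N : ℝ) * ((finrank ℚ L : ℝ) * (((N : ℝ) - F.natDegree) * Real.log q)) ≤
      N * (F.natDegree * (finrank ℚ L * Real.log N + 2 * ∑ i, lam (w i))) := by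
    calc (N : ℝ) * ((finrank ℚ L : ℝ) * (((N : ℝ) - F.natDegree) * Real.log q))
        = (N : ℝ) * ((N : ℝ) - F.natDegree) * (Real.log q * finrank ℚ L) := by ring
      _ ≤ 2 * F.natDegree * S * (Real.log q * finrank ℚ L) :=
          mul_le_mul_of_nonneg_right hsb' (by positivity)
      _ = F.natDegree * (2 * S * Real.log q * finrank ℚ L) := by ring
      _ ≤ F.natDegree * (finrank ℚ L * (N * Real.log N) + 2 * ((N : ℝ) - 1) * ∑ i, lam (w i)) :=
          mul_le_mul_of_nonneg_left h3 ht0.le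
      _ ≤ F.natDegree * (N * (finrank ℚ L * Real.log N + 2 * ∑ i, lam (w i))) := by
          apply mul_le_mul_of_nonneg_left _ ht0.le
          nlinarith
      _ = _ := by ring
  exact le_of_mul_le_mul_left h7 hN1

/-- the logarithmic Mahler measure of the minimal polynomial -/
theorem lam_root {L : Type*} [Field L] [NumberField L] {z : L} (hz : IsIntegral ℤ z) :
    lam z = finrank ℚ L * (Real.log ((minpoly ℤ z).map (Int.castRingHom ℂ)).mahlerMeasure /
      (minpoly ℤ z).natDegree) := by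
  classical
  have hzQ : IsIntegral ℚ z := hz.tower_top
  set K' := ℚ⟮z⟯ with hK'
  set γ : K' := AdjoinSimple.gen ℚ z with hγ
  have hγz : algebraMap K' L γ = z := AdjoinSimple.algebraMap_gen ℚ z
  have hγi : IsIntegral ℤ γ := by
    rw [← hγz] at hz
    exact (isIntegral_algebraMap_iff (algebraMap K' L).injective).mp hz
  have hγc : CInj γ := by
    intro σ τ h
    apply adjoin_algHom_ext ℚ (s := {z})
    intro x hx
    rw [Set.mem_singleton_iff] at hx
    subst hx
    exact h
  have hmin : minpoly ℤ γ = minpoly ℤ z := by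
    rw [← hγz]
    exact (minpoly.algebraMap_eq (algebraMap K' L).injective γ).symm
  have hpmap : (minpoly ℤ z).map (Int.castRingHom ℂ) = ∏ τ : K' →ₐ[ℚ] ℂ, (X - C (τ γ)) := by
    rw [← minpoly_map_eq hγc, minpoly.isIntegrallyClosed_eq_field_fractions' ℚ hγi, hmin,
      Polynomial.map_map]
    rfl
  have hMM : Real.log ((minpoly ℤ z).map (Int.castRingHom ℂ)).mahlerMeasure =
      ∑ τ : K' →ₐ[ℚ] ℂ, Real.log (max 1 ‖τ γ‖) := by
    rw [hpmap]
    have h1 : (∏ τ : K' →ₐ[ℚ] ℂ, (X - C (τ γ))).mahlerMeasure =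
        ∏ τ : K' →ₐ[ℚ] ℂ, max 1 ‖τ γ‖ := by
      rw [Finset.prod_eq_multiset_prod, prod_mahlerMeasure_eq_mahlerMeasure_prod, Multiset.map_map,
        Finset.prod_eq_multiset_prod]
      congr 1
      refine Multiset.map_congr rfl fun τ _ => ?_
      rw [Function.comp_apply, mahlerMeasure_X_sub_C]
    rw [h1, Real.log_prod]
    intro τ _
    have : (0:ℝ) < max 1 ‖τ γ‖ := lt_of_lt_of_le one_pos (le_max_left _ _)
    exact this.ne'
  have hlam : lam z = finrank K' L * ∑ u : K' →ₐ[ℚ] ℂ, Real.log (max 1 ‖u γ‖) := by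
    have h1 := prod_emb z (fun z => max 1 ‖z‖)
    have hpos : ∀ z : ℂ, (max 1 ‖z‖ : ℝ) ≠ 0 := fun z =>
      (lt_of_lt_of_le one_pos (le_max_left _ _)).ne'
    have h2 := congrArg Real.log h1
    rw [Real.log_prod (fun σ _ => hpos _), Real.log_pow, Real.log_prod (fun σ _ => hpos _)] at h2
    exact h2
  have hfr : finrank ℚ K' = (minpoly ℤ z).natDegree := by
    rw [hK', adjoin.finrank hzQ, minpoly.isIntegrallyClosed_eq_field_fractions' ℚ hz]
    exact natDegree_map_eq_of_injective (algebraMap ℤ ℚ).injective_int _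
  have hdeg : finrank ℚ K' * finrank K' L = finrank ℚ L := finrank_mul_finrank ℚ K' L
  have hx0 : (0 : ℝ) < (minpoly ℤ z).natDegree := by
    exact_mod_cast minpoly.natDegree_pos hz
  rw [hlam, hMM, ← hdeg, hfr]
  push_cast
  field_simp

lemma intMM_neg (g : ℤ[X]) : ((-g).map (Int.castRingHom ℂ)).mahlerMeasure =
    (g.map (Int.castRingHom ℂ)).mahlerMeasure := by
  have : (-g).map (Int.castRingHom ℂ) = C (-1) * g.map (Int.castRingHom ℂ) := by
    rw [Polynomial.map_neg]; simp
  rw [this, mahlerMeasure_mul, mahlerMeasure_const]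
  simp

/-- **the inequality relative to an arbitrary field `F`** -/
theorem rel_ineq (F : IntermediateField ℚ ℂ) {α : ℂ} (hα : IsIntegral ℤ α) (q m : ℕ)
    (hq : 1 < q) (G : ℂ[X]) (hGm : G.Monic) (hG0 : 0 < G.natDegree)
    (hval : ∀ z : ℂ, z ∈ (minpoly F α).rootSet ℂ →
      ∃ γ : ℂ, IsIntegral ℤ γ ∧ G.eval (z ^ m) = q * γ)
    (f : ℤ[X]) (hf : Irreducible f) (h0 : aeval α f = 0) :
    0 < ((fun z : ℂ => z ^ m) '' ((minpoly F α).rootSet ℂ)).ncard ∧
    ((((fun z : ℂ => z ^ m) '' ((minpoly F α).rootSet ℂ)).ncard : ℝ) - G.natDegree) *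
      Real.log q ≤ G.natDegree *
      (Real.log ((fun z : ℂ => z ^ m) '' ((minpoly F α).rootSet ℂ)).ncard +
        2 * (m * (((fun z : ℂ => z ^ m) '' ((minpoly F α).rootSet ℂ)).ncard *
          (Real.log (f.map (Int.castRingHom ℂ)).mahlerMeasure / f.natDegree)))) := by
  classical
  -- the polynomial `f` is the minimal polynomial up to sign
  set g := minpoly ℤ α with hg
  have hαF : IsIntegral F α := hα.tower_top
  have hfg : Real.log (f.map (Int.castRingHom ℂ)).mahlerMeasure / f.natDegree =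
      Real.log (g.map (Int.castRingHom ℂ)).mahlerMeasure / g.natDegree := by
    have h1 : g ∣ f := minpoly.isIntegrallyClosed_dvd hα h0
    have h2 : Associated g f := (minpoly.irreducible hα).associated_of_dvd hf h1
    obtain ⟨u, hu⟩ := h2
    obtain ⟨c, hc, hcu⟩ := Polynomial.isUnit_iff.mp u.isUnit
    rcases Int.isUnit_iff.mp hc with h | h
    · rw [← hu, ← hcu, h, C_1, mul_one]
    · rw [← hu, ← hcu, h]
      have : g * C (-1) = -g := by simp
      rw [this, intMM_neg, natDegree_neg]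
  rw [hfg]
  -- the set of the powers
  set R := (minpoly F α).rootSet ℂ with hR
  have hRfin : R.Finite := rootSet_finite _ _
  have hTfin : ((fun z : ℂ => z ^ m) '' R).Finite := hRfin.image _
  set T := hTfin.toFinset with hT
  have hcard : ((fun z : ℂ => z ^ m) '' R).ncard = T.card := Set.ncard_eq_toFinset_card _ hTfin
  rw [hcard]
  have hαR : α ∈ R := by
    rw [hR, mem_rootSet]
    exact ⟨minpoly.ne_zero hαF, minpoly.aeval F α⟩
  have hTne : T.Nonempty := ⟨α ^ m, by
    rw [hT, Set.Finite.mem_toFinset]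
    exact ⟨α, hαR, rfl⟩⟩
  have hN : 0 < T.card := hTne.card_pos
  refine ⟨hN, ?_⟩
  -- the roots are conjugates over the rational field
  have hroot : ∀ z ∈ R, aeval z g = 0 := by
    intro z hz
    have h1 : minpoly F α ∣ g.map (algebraMap ℤ F) := by
      apply minpoly.dvd
      rw [aeval_map_algebraMap]
      exact minpoly.aeval ℤ α
    have h2 := (mem_rootSet.mp hz).2
    obtain ⟨A, hA⟩ := h1
    have h3 : aeval z (g.map (algebraMap ℤ F)) = 0 := by
      rw [hA, map_mul, h2, zero_mul]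
    rwa [aeval_map_algebraMap] at h3
  have hgm : g.Monic := minpoly.monic hα
  set L := IntermediateField.adjoin ℚ (g.rootSet ℂ) with hL
  have hzR : ∀ z ∈ R, z ∈ g.rootSet ℂ := fun z hz => mem_rootSet.mpr ⟨hgm.ne_zero, hroot z hz⟩
  have hint : ∀ z ∈ g.rootSet ℂ, IsIntegral ℤ z := fun z hz =>
    ⟨g, hgm, by rw [← Polynomial.aeval_def]; exact (mem_rootSet.mp hz).2⟩
  have : Finite (g.rootSet ℂ) := (rootSet_finite g ℂ).to_subtype
  have hfin : FiniteDimensional ℚ L := IntermediateField.finiteDimensional_adjoin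
    fun z hz => (hint z hz).tower_top
  have : NumberField L := { to_charZero := inferInstance, to_finiteDimensional := hfin }
  -- choice of representatives
  have hmemT : ∀ x ∈ T, x ∈ (fun z : ℂ => z ^ m) '' R := fun x hx => hTfin.mem_toFinset.mp hx
  let e := T.equivFin.symm
  have hex : ∀ i : Fin T.card, ∃ z ∈ R, z ^ m = (e i : ℂ) := by
    intro i
    obtain ⟨z, hz, h2⟩ := hmemT _ (e i).2
    exact ⟨z, hz, h2⟩
  choose z hzR' hze using hex
  let z' : Fin T.card → L := fun i => ⟨z i, IntermediateField.subset_adjoin ℚ _ (hzR _ (hzR' i))⟩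
  have hz'z : ∀ i, algebraMap L ℂ (z' i) = z i := fun i => rfl
  have hz'int : ∀ i, IsIntegral ℤ (z' i) := by
    intro i
    have h1 := hint _ (hzR _ (hzR' i))
    rw [← hz'z] at h1
    exact (isIntegral_algebraMap_iff (algebraMap L ℂ).injective).mp h1
  have hmin : ∀ i, minpoly ℤ (z' i) = g := by
    intro i
    have h1 : minpoly ℤ (z i) = minpoly ℤ (z' i) := by
      rw [← hz'z]
      exact minpoly.algebraMap_eq (algebraMap L ℂ).injective (z' i)
    rw [← h1]
    have h2 := minpoly.isIntegrallyClosed_dvd (hint _ (hzR _ (hzR' i))) (hroot _ (hzR' i))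
    have h3 : Associated (minpoly ℤ (z i)) g :=
      (minpoly.irreducible (hint _ (hzR _ (hzR' i)))).associated_of_dvd (minpoly.irreducible hα) h2
    exact eq_of_monic_of_associated (minpoly.monic (hint _ (hzR _ (hzR' i)))) hgm h3
  let φ : L →ₐ[ℚ] ℂ := L.val
  have hφ : ∀ i, φ (z' i ^ m) = e i := by
    intro i
    rw [map_pow]
    exact hze i
  have hinj : Function.Injective fun i => z' i ^ m := by
    intro i j h
    have h1 := congrArg φ h
    simp only [hφ] at h1
    exact e.injective (Subtype.ext h1)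
  have h := rel_core hN (fun i => z' i ^ m) (fun i => (hz'int i).pow _) hinj φ G hGm hG0 q hq
    (fun i => by
      obtain ⟨γ, h1, h2⟩ := hval _ (hzR' i)
      refine ⟨γ, h1, ?_⟩
      rw [hφ, ← hze i]
      exact h2)
  have hlam : ∀ i, lam (z' i ^ m) = m * (finrank ℚ L *
      (Real.log (g.map (Int.castRingHom ℂ)).mahlerMeasure / g.natDegree)) := by
    intro i
    rw [lam_pow, lam_root (hz'int i), hmin]
  simp_rw [hlam] at h
  rw [Finset.sum_const, Finset.card_univ, Fintype.card_fin, nsmul_eq_mul] at h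
  have hfr : (0 : ℝ) < finrank ℚ L := by exact_mod_cast finrank_pos (R := ℚ) (M := L)
  have h2 : (finrank ℚ L : ℝ) * (((T.card : ℝ) - G.natDegree) * Real.log q) ≤
      finrank ℚ L * (G.natDegree * (Real.log T.card + 2 * (m * (T.card *
          (Real.log (g.map (Int.castRingHom ℂ)).mahlerMeasure / g.natDegree))))) := by
    refine h.trans (le_of_eq ?_)
    ring
  exact le_of_mul_le_mul_left h2 hfr

end Pool.Agent.TH860.LP
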