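import Mathlib
import Pool.Agent.TH860.LP.Rel

/-!
# Consequences: relative height lower bounds
-/

set_option autoImplicit false

open Polynomial Finset Module IntermediateField

namespace Pool.Agent.TH860.LP

/-- the absolute logarithmic Weil height of an algebraic integer -/
noncomputable def hgt (α : ℂ) : ℝ :=
  Real.log ((minpoly ℤ α).map (Int.castRingHom ℂ)).mahlerMeasure / (minpoly ℤ α).natDegree

/-- the number of distinct `m`-th powers of the complex zeros -/
noncomputable def pz {F : IntermediateField ℚ ℂ} (m : ℕ) (f : F[X]) : ℕ :=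
  ((fun z : ℂ => z ^ m) '' (f.rootSet ℂ)).ncard

/-- integral coefficients -/
def IntC {F : IntermediateField ℚ ℂ} (f : F[X]) : Prop := ∀ i, IsIntegral ℤ ((f.coeff i : F) : ℂ)

variable {F : IntermediateField ℚ ℂ}

lemma IntC.aeval {f : F[X]} (hf : IntC f) {z : ℂ} (hz : IsIntegral ℤ z) :
    IsIntegral ℤ (aeval z f) := by
  rw [aeval_eq_sum_range]
  refine IsIntegral.sum _ fun i _ => ?_
  rw [Algebra.smul_def]
  exact (hf i).mul (hz.pow i)

lemma root_integral {α : ℂ} (hα : IsIntegral ℤ α) {z : ℂ} (hz : z ∈ (minpoly F α).rootSet ℂ) :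
    IsIntegral ℤ z := by
  have h1 : minpoly F α ∣ (minpoly ℤ α).map (algebraMap ℤ F) := by
    apply minpoly.dvd
    rw [aeval_map_algebraMap]
    exact minpoly.aeval ℤ α
  have h2 := (mem_rootSet.mp hz).2
  obtain ⟨A, hA⟩ := h1
  have h3 : aeval z ((minpoly ℤ α).map (algebraMap ℤ F)) = 0 := by
    rw [hA, map_mul, h2, zero_mul]
  rw [aeval_map_algebraMap] at h3
  exact ⟨minpoly ℤ α, minpoly.monic hα, by rw [← Polynomial.aeval_def]; exact h3⟩

/-- the general inequality, for `G` and `B` over `F` -/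
theorem rel_main {α : ℂ} (hα : IsIntegral ℤ α) (q m : ℕ) (hq : 1 < q) (G A B : F[X])
    (hGm : G.Monic) (hG0 : 0 < G.natDegree) (hB : IntC B)
    (hAB : G.comp (X ^ m) = A * minpoly F α + C (q : F) * B) :
    0 < pz m (minpoly F α) ∧
    ((pz m (minpoly F α) : ℝ) - G.natDegree) * Real.log q ≤ G.natDegree *
      (Real.log (pz m (minpoly F α)) + 2 * (m * (pz m (minpoly F α) * hgt α))) := by
  have h := rel_ineq F hα q m hq (G.map (algebraMap F ℂ)) (hGm.map _)
    (by rw [hGm.natDegree_map]; exact hG0) (fun z hz => by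
      refine ⟨aeval z B, hB.aeval (root_integral hα hz), ?_⟩
      have h1 := congrArg (aeval z) hAB
      rw [aeval_comp, map_pow, aeval_X, map_add, map_mul, (mem_rootSet.mp hz).2, mul_zero,
        zero_add, map_mul, aeval_C] at h1
      rw [eval_map_algebraMap, h1]
      simp) (minpoly ℤ α) (minpoly.irreducible hα) (minpoly.aeval ℤ α)
  rw [hGm.natDegree_map] at h
  exact h

/-- from the inequality to a bound for the height -/
lemma to_height {N D m q : ℕ} {h : ℝ} (hN : 0 < N) (hD : 0 < D) (hm : 0 < m) (hq : 1 < q)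
    (h1 : ((N : ℝ) - D) * Real.log q ≤ D * (Real.log N + 2 * (m * (N * h)))) (h2 : 2 * D ≤ N)
    (h3 : 4 * (D : ℝ) * Real.log N ≤ N * Real.log q) :
    Real.log q / (8 * (m * D)) ≤ h := by
  have hq0 : 0 < Real.log q := Real.log_pos (by exact_mod_cast hq)
  have hN' : (0 : ℝ) < N := by exact_mod_cast hN
  have hD' : (0 : ℝ) < D := by exact_mod_cast hD
  have hm' : (0 : ℝ) < m := by exact_mod_cast hm
  have h2' : 2 * (D : ℝ) ≤ N := by exact_mod_cast h2
  rw [div_le_iff₀ (by positivity)]
  have h4 : (N : ℝ) / 2 * Real.log q ≤ (N - D) * Real.log q :=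
    mul_le_mul_of_nonneg_right (by linarith) hq0.le
  have h5 : N * (Real.log q) ≤ N * (h * (8 * (m * D))) := by nlinarith
  exact le_of_mul_le_mul_left h5 hN'

/-- the polynomial in `X ^ m` made of the coefficients with exponents divisible by `m` -/
theorem rel_gap_poly (f : F[X]) (hf : f.Monic) (hf0 : 0 < f.natDegree) (q m : ℕ) (hq : 1 < q)
    (hm : 1 ≤ m) (hc : ∀ i, ¬ m ∣ i → ∃ c : ℂ, IsIntegral ℤ c ∧ ((f.coeff i : F) : ℂ) = q * c) :
    ∃ G B : F[X], G.Monic ∧ 0 < G.natDegree ∧ f.natDegree = m * G.natDegree ∧ IntC B ∧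
      G.comp (X ^ m) = 1 * f + C (q : F) * B := by
  have hq0 : (q : ℂ) ≠ 0 := by exact_mod_cast (by omega : q ≠ 0)
  have hq0' : (q : F) ≠ 0 := by exact_mod_cast (by omega : q ≠ 0)
  have hmd : m ∣ f.natDegree := by
    by_contra h
    obtain ⟨c, hc1, hc2⟩ := hc _ h
    rw [coeff_natDegree, hf.leadingCoeff] at hc2
    have h3 : c = algebraMap ℚ ℂ (1 / (q : ℚ)) := by
      rw [map_div₀, map_one, map_natCast, eq_div_iff hq0, mul_comm, ← hc2]
      simp
    rw [h3, isIntegral_algebraMap_iff (algebraMap ℚ ℂ).injective] at hc1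
    obtain ⟨k, hk⟩ := IsIntegrallyClosed.isIntegral_iff.mp hc1
    have hqq : (q : ℚ) ≠ 0 := by exact_mod_cast (by omega : q ≠ 0)
    rw [eq_intCast, eq_div_iff hqq] at hk
    have hk' : k * (q : ℤ) = 1 := by exact_mod_cast hk
    have h4 := Int.isUnit_iff.mp (IsUnit.of_mul_eq_one_right k hk')
    omega
  obtain ⟨k, hk⟩ := hmd
  have hm0 : m ≠ 0 := by omega
  have hcoef : ∀ n, (contract m f).coeff n = f.coeff (n * m) := fun n => coeff_contract hm0 f n
  have hle : (contract m f).natDegree ≤ k := by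
    rw [natDegree_le_iff_coeff_eq_zero]
    intro n hn
    rw [hcoef]
    apply coeff_eq_zero_of_natDegree_lt
    rw [hk, mul_comm]
    exact Nat.mul_lt_mul_of_pos_right hn (by omega)
  have hone : (contract m f).coeff k = 1 := by
    rw [hcoef, mul_comm, ← hk, coeff_natDegree, hf.leadingCoeff]
  have hmon : (contract m f).Monic := monic_of_natDegree_le_of_coeff_eq_one k hle hone
  have hdeg : (contract m f).natDegree = k := by
    apply le_antisymm hle
    apply le_natDegree_of_ne_zero
    rw [hone]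
    exact one_ne_zero
  have hk0 : 0 < k := by
    rcases Nat.eq_zero_or_pos k with h | h
    · rw [h, mul_zero] at hk
      omega
    · exact h
  refine ⟨contract m f, C ((q : F)⁻¹) * ((contract m f).comp (X ^ m) - f), hmon,
    by rw [hdeg]; exact hk0, by rw [hdeg]; exact hk, ?_, ?_⟩
  · intro i
    rw [coeff_C_mul, coeff_sub, ← expand_eq_comp_X_pow, coeff_expand (by omega : 0 < m)]
    split_ifs with h
    · rw [hcoef, Nat.div_mul_cancel h, sub_self, mul_zero]
      simpa using isIntegral_zero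
    · obtain ⟨c, hc1, hc2⟩ := hc i h
      have : (((q : F)⁻¹ * (0 - f.coeff i) : F) : ℂ) = -c := by
        push_cast
        rw [hc2]
        field_simp
        ring
      rw [this]
      exact hc1.neg
  · rw [← mul_assoc, ← C_mul, mul_inv_cancel₀ hq0', C_1]
    ring

/-- the freshman's dream for sums of algebraic integers -/
lemma sum_pow_mod {p : ℕ} (hp : p.Prime) (t : ℕ) {ι : Type*} (s : Finset ι) (x : ι → ℂ)
    (hx : ∀ i ∈ s, IsIntegral ℤ (x i)) :
    ∃ r : ℂ, IsIntegral ℤ r ∧ (∑ i ∈ s, x i) ^ p ^ t = ∑ i ∈ s, x i ^ p ^ t + p * r := by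
  classical
  induction s using Finset.induction_on with
  | empty =>
    refine ⟨0, isIntegral_zero, ?_⟩
    rw [Finset.sum_empty, Finset.sum_empty, zero_pow (pow_pos hp.pos t).ne']
    ring
  | insert a s ha ih =>
    obtain ⟨r, hr1, hr2⟩ := ih fun i hi => hx i (Finset.mem_insert_of_mem hi)
    have hsum : IsIntegral ℤ (∑ i ∈ s, x i) :=
      IsIntegral.sum _ fun i hi => hx i (Finset.mem_insert_of_mem hi)
    obtain ⟨r', hr'⟩ := exists_add_pow_prime_pow_eq hp
      (⟨x a, hx a (Finset.mem_insert_self a s)⟩ : integralClosure ℤ ℂ)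
      (⟨∑ i ∈ s, x i, hsum⟩ : integralClosure ℤ ℂ) t
    have h1 := congrArg (fun z : integralClosure ℤ ℂ => (z : ℂ)) hr'
    refine ⟨r + x a * (∑ i ∈ s, x i) * r',
      hr1.add (((hx a (Finset.mem_insert_self a s)).mul hsum).mul r'.2), ?_⟩
    rw [Finset.sum_insert ha, Finset.sum_insert ha]
    push_cast at h1
    rw [h1, hr2]
    ring

/-- the case of a power of the prime number `p` -/
theorem rel_prime {α : ℂ} (hα : IsIntegral ℤ α) {p : ℕ} (hp : p.Prime) (t : ℕ) (H A B : F[X])
    (hHm : H.Monic) (hH0 : 0 < H.natDegree) (hH : IntC H) (hB : IntC B)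
    (hAB : H ^ p ^ t = A * minpoly F α + C (p : F) * B) :
    0 < pz (p ^ t) (minpoly F α) ∧
    ((pz (p ^ t) (minpoly F α) : ℝ) - H.natDegree) * Real.log p ≤ H.natDegree *
      (Real.log (pz (p ^ t) (minpoly F α)) +
        2 * ((p ^ t : ℕ) * (pz (p ^ t) (minpoly F α) * hgt α))) := by
  set m := p ^ t with hm
  have hm0 : m ≠ 0 := (pow_pos hp.pos t).ne'
  set D := H.natDegree with hD
  set G : ℂ[X] := X ^ D + ∑ i ∈ Finset.range D, C (((H.coeff i : F) : ℂ) ^ m) * X ^ i with hG
  have hlow : (∑ i ∈ Finset.range D, C (((H.coeff i : F) : ℂ) ^ m) * X ^ i : ℂ[X]).degree < D := by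
    refine (degree_sum_le _ _).trans_lt ?_
    rw [Finset.sup_lt_iff (by exact_mod_cast WithBot.bot_lt_coe D)]
    intro i hi
    exact (degree_C_mul_X_pow_le _ _).trans_lt (by exact_mod_cast Finset.mem_range.mp hi)
  have hGm : G.Monic := monic_X_pow_add hlow
  have hGd : G.natDegree = D := by
    rw [hG]
    rw [natDegree_add_eq_left_of_degree_lt (by rw [degree_X_pow]; exact hlow), natDegree_X_pow]
  have h := rel_ineq F hα p m hp.one_lt G hGm (by rw [hGd]; exact hH0) (fun z hz => by
      have hzi := root_integral hα hz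
      have h1 := congrArg (aeval z) hAB
      rw [map_pow, map_add, map_mul, (mem_rootSet.mp hz).2, mul_zero, zero_add, map_mul,
        aeval_C] at h1
      have h2 : aeval z H = ∑ i ∈ Finset.range (D + 1), ((H.coeff i : F) : ℂ) * z ^ i := by
        rw [aeval_eq_sum_range]
        refine Finset.sum_congr rfl fun i _ => ?_
        rw [Algebra.smul_def]
        rfl
      obtain ⟨r, hr1, hr2⟩ := sum_pow_mod hp t (Finset.range (D + 1))
        (fun i => ((H.coeff i : F) : ℂ) * z ^ i) (fun i _ => (hH i).mul (hzi.pow i))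
      rw [← h2, ← hm, h1] at hr2
      refine ⟨aeval z B - r, (hB.aeval hzi).sub hr1, ?_⟩
      have h3 : G.eval (z ^ m) =
          ∑ i ∈ Finset.range (D + 1), (((H.coeff i : F) : ℂ) * z ^ i) ^ m := by
        rw [Finset.sum_range_succ, hG]
        simp only [eval_add, eval_pow, eval_X, eval_finsetSum, eval_mul, eval_C]
        have h4 : H.coeff D = 1 := hHm.coeff_natDegree
        rw [h4, add_comm]
        congr 1
        · refine Finset.sum_congr rfl fun i _ => ?_
          rw [mul_pow]
          ring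
        · push_cast
          ring
      have h5 : (algebraMap F ℂ) (p : F) = (p : ℂ) := map_natCast _ _
      rw [h5] at hr2
      rw [h3]
      linear_combination -hr2) (minpoly ℤ α) (minpoly.irreducible hα) (minpoly.aeval ℤ α)
  rw [hGd] at h
  exact h

/-- the height from any irreducible integer polynomial -/
theorem hgt_eq {α : ℂ} (hα : IsIntegral ℤ α) (f : ℤ[X]) (hf : Irreducible f)
    (h0 : aeval α f = 0) :
    Real.log (f.map (Int.castRingHom ℂ)).mahlerMeasure / f.natDegree = hgt α := by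
  have h1 : minpoly ℤ α ∣ f := minpoly.isIntegrallyClosed_dvd hα h0
  have h2 : Associated (minpoly ℤ α) f := (minpoly.irreducible hα).associated_of_dvd hf h1
  obtain ⟨u, hu⟩ := h2
  obtain ⟨c, hc, hcu⟩ := Polynomial.isUnit_iff.mp u.isUnit
  unfold hgt
  rcases Int.isUnit_iff.mp hc with h | h
  · rw [← hu, ← hcu, h, C_1, mul_one]
  · rw [← hu, ← hcu, h]
    have : minpoly ℤ α * C (-1) = -minpoly ℤ α := by simp
    rw [this, intMM_neg, natDegree_neg]

/-- **gaps modulo `q`** -/
theorem rel_gap {α : ℂ} (hα : IsIntegral ℤ α) (q m : ℕ) (hq : 1 < q) (hm : 1 ≤ m)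
    (hc : ∀ i, ¬ m ∣ i → ∃ c : ℂ, IsIntegral ℤ c ∧ (((minpoly F α).coeff i : F) : ℂ) = q * c)
    (h2 : 2 * (minpoly F α).natDegree ≤ m * pz m (minpoly F α))
    (h3 : 4 * ((minpoly F α).natDegree : ℝ) * Real.log (pz m (minpoly F α)) ≤
      m * pz m (minpoly F α) * Real.log q) :
    Real.log q / (8 * (minpoly F α).natDegree) ≤ hgt α := by
  have hαF : IsIntegral F α := hα.tower_top
  obtain ⟨G, B, hGm, hG0, hd, hB, hAB⟩ := rel_gap_poly (minpoly F α) (minpoly.monic hαF)
    (minpoly.natDegree_pos hαF) q m hq hm hc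
  obtain ⟨hN, h⟩ := rel_main hα q m hq G 1 B hGm hG0 hB hAB
  have hm0 : 0 < m := by omega
  have hm' : (0 : ℝ) < m := by exact_mod_cast hm0
  have h4 := to_height hN hG0 hm0 hq h (by
      rw [hd] at h2
      have : m * (2 * G.natDegree) ≤ m * pz m (minpoly F α) := by
        calc m * (2 * G.natDegree) = 2 * (m * G.natDegree) := by ring
          _ ≤ _ := h2
      exact Nat.le_of_mul_le_mul_left this hm0) (by
      rw [hd] at h3
      push_cast at h3
      have : (m : ℝ) * (4 * (G.natDegree : ℝ) * Real.log (pz m (minpoly F α))) ≤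
          m * (pz m (minpoly F α) * Real.log q) := by
        calc (m : ℝ) * (4 * (G.natDegree : ℝ) * Real.log (pz m (minpoly F α)))
            = 4 * (m * G.natDegree) * Real.log (pz m (minpoly F α)) := by ring
          _ ≤ _ := h3
          _ = _ := by ring
      exact le_of_mul_le_mul_left this hm')
  rw [hd]
  push_cast
  exact h4

end Pool.Agent.TH860.LP
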